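import Pool.Agent.H.MP_75988d_co.Main

set_option autoImplicit false

namespace Pool.Agent.Results.MP_75988d_co.NotConn

open Pool.Agent.H.MP_75988d_co

/-- Q1 is false. For `π = (-2, 1, 5, 4, 3, 7, 6)` there are two optimal scenarios joined by no
chain of optimal scenarios with consecutive members differing in at most `4` indices; they stay
unjoined when steps of the looser kind `LooseAdj` are allowed as well. -/
theorem result :
    (¬ ∀ n : ℕ, 1 ≤ n → ∀ p : List ℤ, IsSignedPerm n p → ∀ s t : List (ℕ × ℕ),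
      Optimal n p s → Optimal n p t →
      Relation.ReflTransGen (fun a b => Optimal n p a ∧ Optimal n p b ∧ Adj a b) s t) ∧
    (IsSignedPerm 7 [-2, 1, 5, 4, 3, 7, 6] ∧ dist 7 [-2, 1, 5, 4, 3, 7, 6] = 6 ∧
      ∃ s t : List (ℕ × ℕ), Optimal 7 [-2, 1, 5, 4, 3, 7, 6] s ∧
        Optimal 7 [-2, 1, 5, 4, 3, 7, 6] t ∧
        ¬ Relation.ReflTransGen (fun a b => Optimal 7 [-2, 1, 5, 4, 3, 7, 6] a ∧
          Optimal 7 [-2, 1, 5, 4, 3, 7, 6] b ∧
          (Adj a b ∨ LooseAdj [-2, 1, 5, 4, 3, 7, 6] a b)) s t) := by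
  refine ⟨fun h => ?_, perm7, dist7, main⟩
  obtain ⟨s, t, hs, ht, hn⟩ := main
  apply hn
  have h1 := h 7 (by norm_num) p7 perm7 s t hs ht
  clear hn ht
  induction h1 with
  | refl => exact Relation.ReflTransGen.refl
  | tail _ hab ih => exact ih.tail ⟨hab.1, hab.2.1, Or.inl hab.2.2⟩

end Pool.Agent.Results.MP_75988d_co.NotConn
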